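import Pool.Agent.helper90.ZD.SpecB

/-!
# Project zd, module BG1 (helper66): Gallagher's lemma
-/

set_option autoImplicit false

open Complex MeasureTheory

namespace Pool.Agent.ZD

theorem BG1_ineq (a b l s : ℝ) (ha : 0 ≤ a) (hb : 0 ≤ b) (hs0 : 0 ≤ s) (hs : s ≤ l) (i : ℝ)
    (hi : |i| ≤ a * b) : a ^ 2 + s * (2 * i) ≤ 2 * a ^ 2 + l ^ 2 * b ^ 2 := by
  have h1 : i ≤ a * b := (le_abs_self i).trans hi
  have h2 : s * i ≤ l * (a * b) := by
    rcases le_total 0 i with h | h
    · calc s * i ≤ l * i := mul_le_mul_of_nonneg_right hs h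
        _ ≤ l * (a * b) := mul_le_mul_of_nonneg_left h1 (hs0.trans hs)
    · have h3 : s * i ≤ 0 := mul_nonpos_of_nonneg_of_nonpos hs0 h
      have h4 : 0 ≤ l * (a * b) := mul_nonneg (hs0.trans hs) (mul_nonneg ha hb)
      linarith
  nlinarith [sq_nonneg (a - l * b)]

/-- BG1. -/
theorem BG1 : BG1_stmt := by
  intro F G hF hG t l hl
  have hFc : Continuous F := continuous_iff_continuousAt.mpr (fun x => (hF x).continuousAt)
  set f' : ℝ → ℝ := fun x => 2 * inner ℝ (F x) (G x) with hf'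
  have hf : ∀ x, HasDerivAt (fun x => ‖F x‖ ^ 2) (f' x) x := fun x => (hF x).norm_sq
  have hf'c : Continuous f' := continuous_const.mul (hFc.inner hG)
  have hfc : Continuous (fun x => ‖F x‖ ^ 2) := hFc.norm.pow 2
  have hi : ∀ x, |inner ℝ (F x) (G x)| ≤ ‖F x‖ * ‖G x‖ := fun x => abs_real_inner_le_norm _ _
  set Φ : ℝ → ℝ := fun x => 2 * ‖F x‖ ^ 2 + l ^ 2 * ‖G x‖ ^ 2 with hΦ
  have hΦc : Continuous Φ :=
    (continuous_const.mul hfc).add (continuous_const.mul (hG.norm.pow 2))
  -- left half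
  have hleft : l * ‖F t‖ ^ 2 ≤ ∫ x in (t - l)..t, Φ x := by
    have h1 : ∀ x ∈ Set.uIcc (t - l) t, HasDerivAt (fun x => (x - t + l) * ‖F x‖ ^ 2)
        (1 * ‖F x‖ ^ 2 + (x - t + l) * f' x) x := by
      intro x _
      have h2 : HasDerivAt (fun x : ℝ => x - t + l) 1 x :=
        ((hasDerivAt_id x).sub_const t).add_const l
      exact h2.mul (hf x)
    have hc : Continuous (fun x : ℝ => 1 * ‖F x‖ ^ 2 + (x - t + l) * f' x) :=
      (continuous_const.mul hfc).add (((continuous_id.sub continuous_const).add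
        continuous_const).mul hf'c)
    have h2 := intervalIntegral.integral_eq_sub_of_hasDerivAt h1 (hc.intervalIntegrable _ _)
    have h3 : ∫ x in (t - l)..t, (1 * ‖F x‖ ^ 2 + (x - t + l) * f' x) ≤
        ∫ x in (t - l)..t, Φ x := by
      refine intervalIntegral.integral_mono_on (by linarith) (hc.intervalIntegrable _ _)
        (hΦc.intervalIntegrable _ _) ?_
      intro x hx
      rw [one_mul]
      exact BG1_ineq _ _ l (x - t + l) (norm_nonneg _) (norm_nonneg _) (by linarith [hx.1])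
        (by linarith [hx.2]) _ (hi x)
    rw [h2] at h3
    have h4 : (t - t + l) * ‖F t‖ ^ 2 - (t - l - t + l) * ‖F (t - l)‖ ^ 2 = l * ‖F t‖ ^ 2 := by
      ring
    rw [h4] at h3
    exact h3
  -- right half
  have hright : l * ‖F t‖ ^ 2 ≤ ∫ x in t..(t + l), Φ x := by
    have h1 : ∀ x ∈ Set.uIcc t (t + l), HasDerivAt (fun x => (x - t - l) * ‖F x‖ ^ 2)
        (1 * ‖F x‖ ^ 2 + (x - t - l) * f' x) x := by
      intro x _
      have h2 : HasDerivAt (fun x : ℝ => x - t - l) 1 x :=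
        ((hasDerivAt_id x).sub_const t).sub_const l
      exact h2.mul (hf x)
    have hc : Continuous (fun x : ℝ => 1 * ‖F x‖ ^ 2 + (x - t - l) * f' x) :=
      (continuous_const.mul hfc).add (((continuous_id.sub continuous_const).sub
        continuous_const).mul hf'c)
    have h2 := intervalIntegral.integral_eq_sub_of_hasDerivAt h1 (hc.intervalIntegrable _ _)
    have h3 : ∫ x in t..(t + l), (1 * ‖F x‖ ^ 2 + (x - t - l) * f' x) ≤
        ∫ x in t..(t + l), Φ x := by
      refine intervalIntegral.integral_mono_on (by linarith) (hc.intervalIntegrable _ _)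
        (hΦc.intervalIntegrable _ _) ?_
      intro x hx
      rw [one_mul]
      have h5 := BG1_ineq ‖F x‖ ‖G x‖ l (t + l - x) (norm_nonneg _) (norm_nonneg _)
        (by linarith [hx.2]) (by linarith [hx.1]) (-(inner ℝ (F x) (G x)))
        (by rw [abs_neg]; exact hi x)
      have h6 : ‖F x‖ ^ 2 + (x - t - l) * f' x =
          ‖F x‖ ^ 2 + (t + l - x) * (2 * -(inner ℝ (F x) (G x))) := by
        simp only [hf']
        ring
      rw [h6]
      exact h5
    rw [h2] at h3
    have h4 : (t + l - t - l) * ‖F (t + l)‖ ^ 2 - (t - t - l) * ‖F t‖ ^ 2 = l * ‖F t‖ ^ 2 := by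
      ring
    rw [h4] at h3
    exact h3
  have hsum : 2 * l * ‖F t‖ ^ 2 ≤ ∫ x in (t - l)..(t + l), Φ x := by
    rw [← intervalIntegral.integral_add_adjacent_intervals
      (hΦc.intervalIntegrable (t - l) t) (hΦc.intervalIntegrable t (t + l))]
    linarith
  set Ψ : ℝ → ℝ := fun x => 1 / l * ‖F x‖ ^ 2 + l * ‖G x‖ ^ 2 with hΨ
  have hΨc : Continuous Ψ :=
    (continuous_const.mul hfc).add (continuous_const.mul (hG.norm.pow 2))
  have h5 : ∫ x in (t - l)..(t + l), Φ x ≤ ∫ x in (t - l)..(t + l), 2 * l * Ψ x := by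
    refine intervalIntegral.integral_mono_on (by linarith) (hΦc.intervalIntegrable _ _)
      ((continuous_const.mul hΨc).intervalIntegrable _ _) ?_
    intro x _
    have h6 : 2 * l * Ψ x = 2 * ‖F x‖ ^ 2 + 2 * l ^ 2 * ‖G x‖ ^ 2 := by
      simp only [hΨ]
      field_simp
    rw [h6]
    have h7 : 0 ≤ l ^ 2 * ‖G x‖ ^ 2 := by positivity
    simp only [hΦ]
    linarith
  rw [intervalIntegral.integral_const_mul] at h5
  have h6 : 2 * l * ‖F t‖ ^ 2 ≤ 2 * l * ∫ x in (t - l)..(t + l), Ψ x := hsum.trans h5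
  exact le_of_mul_le_mul_left h6 (by positivity)

end Pool.Agent.ZD
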