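import Pool.Agent.helper84.ZD.SpecA

/-!
# Project zd, module CRD (helper66)
-/

set_option autoImplicit false

namespace Pool.Agent.ZD

/-- CRD. -/
theorem CRD : CRD_stmt := by
  intro T W hT hW hd
  have h1 : W.card ≤ (Finset.range (⌊T⌋₊ + 1)).card := by
    refine Finset.card_le_card_of_injOn (fun t => ⌊t - T⌋₊) ?_ ?_
    · intro t ht
      have h2 := hW t (Finset.mem_coe.mp ht)
      refine Finset.mem_coe.mpr (Finset.mem_range.mpr ?_)
      have h3 : ⌊t - T⌋₊ ≤ ⌊T⌋₊ := Nat.floor_le_floor (by linarith [h2.2])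
      show ⌊t - T⌋₊ < ⌊T⌋₊ + 1
      omega
    · intro t ht t' ht' he
      by_contra hne
      have h2 := hW t (Finset.mem_coe.mp ht)
      have h3 := hW t' (Finset.mem_coe.mp ht')
      have h4 := hd t (Finset.mem_coe.mp ht) t' (Finset.mem_coe.mp ht') hne
      have h5 : ⌊t - T⌋₊ = ⌊t' - T⌋₊ := he
      have h6 := Nat.floor_le (show (0 : ℝ) ≤ t - T by linarith [h2.1])
      have h7 := Nat.floor_le (show (0 : ℝ) ≤ t' - T by linarith [h3.1])
      have h8 := Nat.lt_floor_add_one (t - T)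
      have h9 := Nat.lt_floor_add_one (t' - T)
      rw [h5] at h6 h8
      have h10 : |t - t'| < 1 := by
        rw [abs_lt]
        constructor <;> linarith
      linarith
  rw [Finset.card_range] at h1
  have h2 : (W.card : ℝ) ≤ ((⌊T⌋₊ + 1 : ℕ) : ℝ) := by exact_mod_cast h1
  have h3 := Nat.floor_le (show (0 : ℝ) ≤ T by linarith)
  push_cast at h2
  linarith

end Pool.Agent.ZD
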